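import Mathlib

namespace Pool.Agent.Results.MP_98aad6_an.EmptyFri

open Filter Topology Set

/-- the real Hilbert space of square summable sequences -/
abbrev H : Type := lp (fun _ : ℕ => ℝ) 2

/-- `F` is a face of `C` -/
def IsFace (C F : Set H) : Prop :=
  Convex ℝ F ∧ F ⊆ C ∧ ∀ x ∈ F, ∀ y ∈ C, ∀ z ∈ C, x ∈ openSegment ℝ y z → y ∈ F ∧ z ∈ F

/-- the smallest face of `C` containing `x` -/
def Fmin (x : H) (C : Set H) : Set H := ⋂₀ {F | IsFace C F ∧ x ∈ F}

/-- face relative interior -/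
def fri (C : Set H) : Set H := {x | x ∈ C ∧ C ⊆ closure (Fmin x C)}

/-- quasi-relative interior -/
def qri (C : Set H) : Set H :=
  {x | x ∈ C ∧ ∃ L : Submodule ℝ H, closure {v | ∃ y ∈ C, ∃ a : ℝ, 0 ≤ a ∧ v = a • (y - x)} = L}

def C : Set H := {y | ∃ N, 0 < y N ∧ ∀ n, N < n → y n = 0}

lemma comb {y z : H} {a b : ℝ} (ha : 0 < a) (hb : 0 < b) {N M : ℕ} (hy : 0 < y N)
    (hy' : ∀ n, N < n → y n = 0) (hz : 0 < z M) (hz' : ∀ n, M < n → z n = 0) :
    0 < (a • y + b • z) (max N M) ∧ ∀ n, max N M < n → (a • y + b • z) n = 0 := by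
  simp only [lp.coeFn_add, lp.coeFn_smul, Pi.add_apply, Pi.smul_apply, smul_eq_mul]
  refine ⟨?_, fun n hn => by rw [hy' n (by omega), hz' n (by omega)]; simp⟩
  rcases lt_trichotomy N M with h | rfl | h
  · rw [max_eq_right h.le, hy' M h]; positivity
  · rw [max_self]; positivity
  · rw [max_eq_left h.le, hz' N h]; positivity

lemma convex_C : Convex ℝ C := by
  rw [convex_iff_forall_pos]
  rintro y ⟨N, hy, hy'⟩ z ⟨M, hz, hz'⟩ a b ha hb -
  exact ⟨_, comb ha hb hy hy' hz hz'⟩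

lemma single_mem (N : ℕ) : (lp.single 2 N (1 : ℝ) : H) ∈ C :=
  ⟨N, by simp, fun n hn => by simp [lp.single_apply, Pi.single_eq_of_ne hn.ne']⟩

lemma dense_C : Dense C := by
  intro y
  have h1 := (lp.hasSum_single (p := 2) (by simp) y).tendsto_sum_nat
  have h2 : Tendsto (fun N : ℕ => (1 / ((N : ℝ) + 1)) • (lp.single 2 N (1 : ℝ) : H)) atTop (𝓝 0) := by
    rw [tendsto_zero_iff_norm_tendsto_zero]
    refine tendsto_one_div_add_atTop_nhds_zero_nat.congr fun N => ?_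
    rw [norm_smul, lp.norm_single (by simp), norm_one, mul_one, Real.norm_of_nonneg (by positivity)]
  have h3 := h1.add h2
  rw [add_zero] at h3
  refine mem_closure_of_tendsto h3 (Eventually.of_forall fun N => ⟨N, ?_, fun n hn => ?_⟩)
  · simp only [lp.coeFn_add, lp.coeFn_smul, lp.coeFn_sum, Pi.add_apply, Pi.smul_apply,
      Finset.sum_apply, lp.single_apply, Pi.single_eq_same, smul_eq_mul, mul_one]
    rw [Finset.sum_eq_zero fun i hi => Pi.single_eq_of_ne (Finset.mem_range.1 hi).ne' _]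
    positivity
  · simp only [lp.coeFn_add, lp.coeFn_smul, lp.coeFn_sum, Pi.add_apply, Pi.smul_apply,
      Finset.sum_apply, lp.single_apply, smul_eq_mul]
    rw [Finset.sum_eq_zero fun i hi => Pi.single_eq_of_ne ((Finset.mem_range.1 hi).trans hn).ne' _,
      Pi.single_eq_of_ne hn.ne']
    simp

lemma lead {y : H} {N K : ℕ} (hy : 0 < y N) (h : ∀ n, K < n → y n = 0) : N ≤ K := by
  by_contra hc
  exact hy.ne' (h N (by omega))

lemma face (K : ℕ) : IsFace C {y | y ∈ C ∧ ∀ n, K < n → y n = 0} := by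
  refine ⟨?_, fun y hy => hy.1, ?_⟩
  · rintro y ⟨hy, hy'⟩ z ⟨hz, hz'⟩ a b ha hb hab
    exact ⟨convex_C hy hz ha hb hab, fun n hn => by simp [hy' n hn, hz' n hn]⟩
  · rintro x ⟨-, hx⟩ y ⟨N, hy, hy'⟩ z ⟨M, hz, hz'⟩ ⟨a, b, ha, hb, -, rfl⟩
    have := lead (comb ha hb hy hy' hz hz').1 hx
    exact ⟨⟨⟨N, hy, hy'⟩, fun n hn => hy' n (by omega)⟩, ⟨⟨M, hz, hz'⟩, fun n hn => hz' n (by omega)⟩⟩

theorem result : ∃ C : Set H, Convex ℝ C ∧ C.Nonempty ∧ qri C = C ∧ fri C = ∅ := by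
  refine ⟨C, convex_C, ⟨_, single_mem 0⟩, ?_, ?_⟩
  · refine Subset.antisymm (fun x hx => hx.1) fun x hx => ⟨hx, ⊤, ?_⟩
    refine Dense.closure_eq (Dense.mono ?_ ((Homeomorph.subRight x).surjective.denseRange.dense_image
      (Homeomorph.subRight x).continuous dense_C))
    rintro _ ⟨y, hy, rfl⟩
    exact ⟨y, hy, 1, zero_le_one, by simp⟩
  · refine eq_empty_of_forall_notMem ?_
    rintro x ⟨⟨N, hx, hx'⟩, h⟩
    have h1 : Fmin x C ⊆ {y : H | y (N + 1) = 0} := fun y hy =>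
      (hy _ ⟨face N, ⟨N, hx, hx'⟩, hx'⟩).2 _ (Nat.lt_succ_self N)
    have h2 : IsClosed {y : H | y (N + 1) = 0} :=
      isClosed_eq ((continuous_apply (N + 1)).comp lp.uniformContinuous_coe.continuous)
        continuous_const
    have := (h2.closure_subset_iff.2 h1) (h (single_mem (N + 1)))
    simp at this

end Pool.Agent.Results.MP_98aad6_an.EmptyFri
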